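import Pool.Agent.H709U.TopR

/-! # A cubic averaged bound for closed orbits with diameters in a given range -/

open Set MeasureTheory
open scoped ENNReal

namespace Pool.Agent.Results.MP_95e7ec_an.CubicPerScale

/-- closed orbits (limit cycles or not) in the plane of the field `(P, Q)` rotated by `α` whose
Euclidean diameter is between `r` and `R` -/
def closedOrbits (P Q : MvPolynomial (Fin 2) ℝ) (r R α : ℝ) : Set (Set (ℝ × ℝ)) :=
  {C | (∃ γ : ℝ → ℝ × ℝ, ∃ T : ℝ, 0 < T ∧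
      (∀ t : ℝ, HasDerivAt γ
        (Real.cos α * MvPolynomial.eval ![(γ t).1, (γ t).2] P -
            Real.sin α * MvPolynomial.eval ![(γ t).1, (γ t).2] Q,
          Real.sin α * MvPolynomial.eval ![(γ t).1, (γ t).2] P +
            Real.cos α * MvPolynomial.eval ![(γ t).1, (γ t).2] Q) t) ∧
      (∀ t : ℝ, γ (t + T) = γ t) ∧ (∃ s t : ℝ, γ s ≠ γ t) ∧ C = Set.range γ) ∧
    (∃ x ∈ C, ∃ y ∈ C, r ≤ √((x.1 - y.1) ^ 2 + (x.2 - y.2) ^ 2)) ∧
    ∀ x ∈ C, ∀ y ∈ C, √((x.1 - y.1) ^ 2 + (x.2 - y.2) ^ 2) ≤ R}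

/-- For every nonzero polynomial field of degree at most `n` and `0 < r ≤ R`, the mean over the
rotation angle of the number of closed orbits in the plane with diameter in `[r, R]` is at most
`4 n³ (1 + log₂ (R / r))`. -/
theorem result (n : ℕ) (P Q : MvPolynomial (Fin 2) ℝ) (hP : P.totalDegree ≤ n)
    (hQ : Q.totalDegree ≤ n) (hne : P ≠ 0 ∨ Q ≠ 0) (r R : ℝ) (hr : 0 < r) (hR : r ≤ R) :
    ∃ g : ℝ → ℝ≥0∞, Measurable g ∧
      (∀ α ∈ Ioo 0 Real.pi, ((closedOrbits P Q r R α).encard : ℝ≥0∞) ≤ g α) ∧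
      ∫⁻ α in Ioo 0 Real.pi, g α ≤
        ENNReal.ofReal (Real.pi * (4 * n ^ 3 * (1 + Real.logb 2 (R / r)))) := by
  obtain ⟨g, h1, h2, h3⟩ := H709U.cubicPerScale hP hQ hne hr hR
  refine ⟨g, h1, h2, h3.trans (ENNReal.ofReal_le_ofReal (le_of_eq (by ring)))⟩

end Pool.Agent.Results.MP_95e7ec_an.CubicPerScale
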