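import Pool.Agent.H709R2.ThmA

open Pool.Agent.H709R2 in
/-- Hilbert's sixteenth problem on average over rotations, for closed orbits of diameter `≥ d`.
`P, Q` are polynomials of degree `≤ n`, the field is rotated by the angle `α`, and all closed
orbits (limit cycles or not) of the rotated field inside the rectangle `[a,b] × [c,e]` which
contain two points at Euclidean distance `≥ d` are counted. -/
theorem Pool.Agent.Results.MP_95e7ec_an.MeanHilbertBigCycles.result
    (n : ℕ) (P Q : MvPolynomial (Fin 2) ℝ) (hP : P.totalDegree ≤ n) (hQ : Q.totalDegree ≤ n)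
    (a b c e d : ℝ) (hab : a ≤ b) (hce : c ≤ e) (hd : 0 < d) :
    ∃ g : ℝ → ENNReal, Measurable g ∧
      (∀ α ∈ Set.Ioo 0 Real.pi,
        ((Set.encard {C : Set (ℝ × ℝ) |
          (∃ γ : ℝ → ℝ × ℝ, ∃ T : ℝ, 0 < T ∧
            (∀ t : ℝ, HasDerivAt γ
              (Real.cos α * MvPolynomial.eval ![(γ t).1, (γ t).2] P -
                  Real.sin α * MvPolynomial.eval ![(γ t).1, (γ t).2] Q,
                Real.sin α * MvPolynomial.eval ![(γ t).1, (γ t).2] P +
                  Real.cos α * MvPolynomial.eval ![(γ t).1, (γ t).2] Q) t) ∧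
            (∀ t : ℝ, γ (t + T) = γ t) ∧
            (∃ s t : ℝ, γ s ≠ γ t) ∧
            C = Set.range γ) ∧
          C ⊆ Set.Icc a b ×ˢ Set.Icc c e ∧
          ∃ p ∈ C, ∃ q ∈ C, d ≤ Real.sqrt ((p.1 - q.1) ^ 2 + (p.2 - q.2) ^ 2)} : ℕ∞) :
          ENNReal) ≤ g α) ∧
      MeasureTheory.lintegral (MeasureTheory.volume.restrict (Set.Ioo 0 Real.pi)) g ≤
        ENNReal.ofReal (Real.pi * (n * ((b - a) + (e - c)) / (2 * d))) := by
  obtain ⟨g, hg1, hg2, hg3⟩ := thmA hP hQ a b c e hd
  refine ⟨g, hg1, hg2, ?_⟩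
  refine (MeasureTheory.setLIntegral_le_lintegral _ _).trans (hg3.trans ?_)
  rw [← ENNReal.ofReal_add (by linarith) (by linarith), ← ENNReal.ofReal_mul (by positivity),
    ← ENNReal.ofReal_mul (by positivity)]
  apply ENNReal.ofReal_le_ofReal
  apply le_of_eq
  field_simp
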