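import Pool.Agent.H709U.TopG

/-! # A cubic averaged bound for uniformly star-shaped closed orbits of all sizes -/

open Set MeasureTheory
open scoped ENNReal

namespace Pool.Agent.Results.MP_95e7ec_an.RoundCubic

/-- the vector field `(P, Q)` rotated by the angle `α` -/
noncomputable def rotated (P Q : MvPolynomial (Fin 2) ℝ) (α : ℝ) (z : ℝ × ℝ) : ℝ × ℝ :=
  (Real.cos α * MvPolynomial.eval ![z.1, z.2] P - Real.sin α * MvPolynomial.eval ![z.1, z.2] Q,
    Real.sin α * MvPolynomial.eval ![z.1, z.2] P + Real.cos α * MvPolynomial.eval ![z.1, z.2] Q)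

/-- closed orbits `C` (of all sizes, limit cycles or not) in the plane of the field `(P, Q)` rotated
by `α` for which some common zero `p` of `P` and `Q` has, for every `z ∈ C`, distance greater than
`β |z - p|` from the tangent line of `C` at `z` -/
def roundOrbits (P Q : MvPolynomial (Fin 2) ℝ) (β α : ℝ) : Set (Set (ℝ × ℝ)) :=
  {C | (∃ γ : ℝ → ℝ × ℝ, ∃ T : ℝ, 0 < T ∧ (∀ t : ℝ, HasDerivAt γ (rotated P Q α (γ t)) t) ∧
      (∀ t : ℝ, γ (t + T) = γ t) ∧ (∃ s t : ℝ, γ s ≠ γ t) ∧ C = Set.range γ) ∧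
    ∃ p : ℝ × ℝ, MvPolynomial.eval ![p.1, p.2] P = 0 ∧ MvPolynomial.eval ![p.1, p.2] Q = 0 ∧
      ∀ z ∈ C, β * √((z.1 - p.1) ^ 2 + (z.2 - p.2) ^ 2) *
          √((rotated P Q α z).1 ^ 2 + (rotated P Q α z).2 ^ 2) <
        |(z.1 - p.1) * (rotated P Q α z).2 - (z.2 - p.2) * (rotated P Q α z).1|}

/-- For all relatively prime `P, Q` of degree at most `n` and `0 < β < 1`, the mean over the
rotation angle of the number of these closed orbits is at most `n³ / β²`. -/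
theorem result (n : ℕ) (P Q : MvPolynomial (Fin 2) ℝ) (hP : P.totalDegree ≤ n)
    (hQ : Q.totalDegree ≤ n) (hrel : IsRelPrime P Q) (β : ℝ) (hβ : 0 < β) (hβ1 : β < 1) :
    ∃ g : ℝ → ℝ≥0∞, Measurable g ∧
      (∀ α ∈ Ioo 0 Real.pi, ((roundOrbits P Q β α).encard : ℝ≥0∞) ≤ g α) ∧
      ∫⁻ α in Ioo 0 Real.pi, g α ≤ ENNReal.ofReal (Real.pi * (n ^ 3 / β ^ 2)) := by
  have hβ2 : 0 < 1 - β ^ 2 := by nlinarith
  set x : ℝ := β / √(1 - β ^ 2) with hx
  have hxpos : 0 < x := div_pos hβ (Real.sqrt_pos.2 hβ2)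
  have hx2 : x ^ 2 = β ^ 2 / (1 - β ^ 2) := by
    rw [hx, div_pow, Real.sq_sqrt hβ2.le]
  obtain ⟨g, h1, h2, h3⟩ := H709U.roundCubic hP hQ hrel hxpos
  refine ⟨g, h1, ?_, h3.trans (ENNReal.ofReal_le_ofReal (le_of_eq ?_))⟩
  · intro α hα
    refine le_trans (ENat.toENNReal_le.2 (encard_le_encard ?_)) (h2 α hα)
    rintro C ⟨⟨γ, T, hT, hγ, hper, hnc, hC⟩, p, hp1, hp2, h⟩
    refine ⟨⟨γ, T, hT, hγ, hper, hnc, hC⟩, p, Prod.ext hp1 hp2, ?_⟩
    intro z hz
    have h4 := h z hz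
    set v := H709U.V (H709R2.field P Q) p α z with hv
    set w := H709U.W (H709R2.field P Q) p α z with hw
    have h5 : (z.1 - p.1) * (rotated P Q α z).2 - (z.2 - p.2) * (rotated P Q α z).1 = v := rfl
    have h6 : ((z.1 - p.1) ^ 2 + (z.2 - p.2) ^ 2) *
        ((rotated P Q α z).1 ^ 2 + (rotated P Q α z).2 ^ 2) = v ^ 2 + w ^ 2 := by
      have h7 : (z.1 - p.1) * (rotated P Q α z).1 + (z.2 - p.2) * (rotated P Q α z).2 = w := rfl
      rw [← h5, ← h7]
      ring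
    rw [mul_assoc, ← Real.sqrt_mul (by positivity), h6, h5] at h4
    have h8 : (β * √(v ^ 2 + w ^ 2)) ^ 2 < |v| ^ 2 := by
      apply pow_lt_pow_left₀ h4 (by positivity) (by norm_num)
    rw [mul_pow, Real.sq_sqrt (by positivity), sq_abs] at h8
    show x ^ 2 * w ^ 2 < v ^ 2
    rw [hx2, div_mul_eq_mul_div, div_lt_iff₀ hβ2]
    nlinarith
  · rw [hx2]
    field_simp
    ring

end Pool.Agent.Results.MP_95e7ec_an.RoundCubic
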