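import Pool.Agent.H709R2.Smooth4

namespace Pool.Agent.Results.MP_95e7ec_an.SmoothedLinearBound

/-- The set of all nonconstant closed orbits contained in `[-R,R]²` of the planar system obtained
from `x' = P, y' = Q` by adding the affine perturbation `(a₀ + a₁ x + a₂ y, a₃ + a₄ x + a₅ y)` and
rotating the resulting vector field by the angle `α`; the parameter is `z = (α, a)`. -/
def closedOrbits (P Q : MvPolynomial (Fin 2) ℝ) (R : ℝ) (z : ℝ × (Fin 6 → ℝ)) :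
    Set (Set (ℝ × ℝ)) :=
  {C | (∃ γ : ℝ → ℝ × ℝ, ∃ T : ℝ, 0 < T ∧
      (∀ t : ℝ, HasDerivAt γ
        (Real.cos z.1 * (MvPolynomial.eval ![(γ t).1, (γ t).2] P +
            (z.2 0 + z.2 1 * (γ t).1 + z.2 2 * (γ t).2)) -
          Real.sin z.1 * (MvPolynomial.eval ![(γ t).1, (γ t).2] Q +
            (z.2 3 + z.2 4 * (γ t).1 + z.2 5 * (γ t).2)),
         Real.sin z.1 * (MvPolynomial.eval ![(γ t).1, (γ t).2] P +
            (z.2 0 + z.2 1 * (γ t).1 + z.2 2 * (γ t).2)) +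
          Real.cos z.1 * (MvPolynomial.eval ![(γ t).1, (γ t).2] Q +
            (z.2 3 + z.2 4 * (γ t).1 + z.2 5 * (γ t).2))) t) ∧
      (∀ t : ℝ, γ (t + T) = γ t) ∧
      (∃ s t : ℝ, γ s ≠ γ t) ∧
      C = Set.range γ) ∧
    C ⊆ Set.Icc (-R) R ×ˢ Set.Icc (-R) R}

open Pool.Agent.H709R2 in
lemma closedOrbits_eq (P Q : MvPolynomial (Fin 2) ℝ) (R : ℝ) (z : ℝ × (Fin 6 → ℝ)) :
    (((closedOrbits P Q R z).encard : ℕ∞) : ENNReal) = cntA (field P Q) (sqr 0 R) 0 z := by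
  have h1 : ∀ p : ℝ × ℝ,
      ((Real.cos z.1 * (MvPolynomial.eval ![p.1, p.2] P +
            (z.2 0 + z.2 1 * p.1 + z.2 2 * p.2)) -
          Real.sin z.1 * (MvPolynomial.eval ![p.1, p.2] Q +
            (z.2 3 + z.2 4 * p.1 + z.2 5 * p.2)),
         Real.sin z.1 * (MvPolynomial.eval ![p.1, p.2] P +
            (z.2 0 + z.2 1 * p.1 + z.2 2 * p.2)) +
          Real.cos z.1 * (MvPolynomial.eval ![p.1, p.2] Q +
            (z.2 3 + z.2 4 * p.1 + z.2 5 * p.2))) : ℝ × ℝ) =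
      rot z.1 (pert (field P Q) z.2 p) := by
    intro p
    unfold rot pert field A0 A1 A2
    ext
    · simp only [Prod.fst_add, Prod.snd_add, Prod.smul_fst, Prod.smul_snd, smul_eq_mul]
      ring
    · simp only [Prod.fst_add, Prod.snd_add, Prod.smul_fst, Prod.smul_snd, smul_eq_mul]
      ring
  have h2 : sqr 0 R = Set.Icc (-R) R ×ˢ Set.Icc (-R) R := by
    unfold sqr
    simp
  unfold cntA
  have h3 : closedOrbits P Q R z = Cls (fun p => rot z.1 (pert (field P Q) z.2 p)) (sqr 0 R) 0 := by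
    ext C
    unfold closedOrbits Cls ClosedOrbit
    simp only [h1, h2, Set.mem_ofPred_eq]
    constructor
    · rintro ⟨⟨γ, T, hT, hγ, hper, hnc, rfl⟩, hsub⟩
      refine ⟨⟨γ, T, hT, hγ, hper, hnc, rfl⟩, hsub, γ 0, ⟨0, rfl⟩, γ 0, ⟨0, rfl⟩, ?_⟩
      simpa using sq_nonneg' (γ 0 - γ 0)
    · rintro ⟨h, hsub, -⟩
      exact ⟨h, hsub⟩
  rw [h3]

open Pool.Agent.H709R2 in
/-- Smoothed analysis of the number of limit cycles: a bound linear in the degree. -/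
theorem result : ∃ A : ℝ, 0 < A ∧ ∀ (n : ℕ) (P Q : MvPolynomial (Fin 2) ℝ),
    P.totalDegree ≤ n → Q.totalDegree ≤ n → ∀ R : ℝ, 0 ≤ R →
    (∀ x y : ℝ, |x| ≤ R + 3 → |y| ≤ R + 3 → ∀ i j : Fin 2,
      |MvPolynomial.eval ![x, y] (MvPolynomial.pderiv i P)| ≤ 1 ∧
      |MvPolynomial.eval ![x, y] (MvPolynomial.pderiv i Q)| ≤ 1 ∧
      |MvPolynomial.eval ![x, y] (MvPolynomial.pderiv i (MvPolynomial.pderiv j P))| ≤ 1 ∧
      |MvPolynomial.eval ![x, y] (MvPolynomial.pderiv i (MvPolynomial.pderiv j Q))| ≤ 1) →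
    ∀ β : ℝ, 0 < β → β ≤ 1 →
      Measurable (fun z : ℝ × (Fin 6 → ℝ) =>
        (((closedOrbits P Q R z).encard : ℕ∞) : ENNReal)) ∧
      MeasureTheory.lintegral
          (MeasureTheory.volume.restrict {z : ℝ × (Fin 6 → ℝ) | |z.1| ≤ β ∧ ∀ i, |z.2 i| ≤ β})
          (fun z => (((closedOrbits P Q R z).encard : ℕ∞) : ENNReal)) ≤
        ENNReal.ofReal (A * (n + 1) * (R + 1) ^ 2 / β ^ 4) *
          MeasureTheory.volume {z : ℝ × (Fin 6 → ℝ) | |z.1| ≤ β ∧ ∀ i, |z.2 i| ≤ β} := by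
  refine ⟨(18 * Ccell + 128 * Real.pi) / 64, ?_, ?_⟩
  · have := Ccell_pos
    have := Real.pi_pos
    positivity
  · intro n P Q hP hQ R hR hb β hβ hβ1
    simp only [closedOrbits_eq]
    have hb' : ∀ p : ℝ × ℝ, ‖p‖ ≤ R + 3 → ∀ i j : Fin 2,
      |MvPolynomial.eval ![p.1, p.2] (MvPolynomial.pderiv i P)| ≤ 1 ∧
      |MvPolynomial.eval ![p.1, p.2] (MvPolynomial.pderiv i Q)| ≤ 1 ∧
      |MvPolynomial.eval ![p.1, p.2] (MvPolynomial.pderiv i (MvPolynomial.pderiv j P))| ≤ 1 ∧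
      |MvPolynomial.eval ![p.1, p.2] (MvPolynomial.pderiv i (MvPolynomial.pderiv j Q))| ≤ 1 :=
      fun p hp => hb p.1 p.2 ((norm_fst_le p).trans hp) ((norm_snd_le p).trans hp)
    refine ⟨measurable_cntA hP hQ (isCompact_Icc.prod isCompact_Icc) 0, ?_⟩
    exact smooth_box hP hQ hR
      (fun p hp => field_D1 P Q (fun p hp i => (hb' p hp i i).1) (fun p hp i => (hb' p hp i i).2.1)
        hp)
      (fun p q hp hq => field_D2 P Q (fun p hp i j => (hb' p hp i j).2.2.1)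
        (fun p hp i j => (hb' p hp i j).2.2.2) hp hq) hβ hβ1

end Pool.Agent.Results.MP_95e7ec_an.SmoothedLinearBound
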